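import Pool.Agent.Q41.ZP.KFamP
import Pool.Agent.Q77.ZP.Twist
import Pool.Agent.Results.MP_d83ecd_ag.LocalCriterion

/-!
# MP_d83ecd_ag: Zilber-Pink in products of modular curves of any levels for ALL subvarieties which are
images of projective varieties under maps in general position over a ring `S_t`, scaled by `c (t)`,
for all but `O(H^(q - 1 + ε))` integral points `t` of a `q`-dimensional parameter space

The Shimura variety `Y(1)^n` is identified with `ℂ^n` by the elliptic modular function
`jj = j = E₄³ / Δ`. The definitions `scaledImage`, `NoAtypical`, `InGeneralPosition`,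
`IndependentExponents` (and the special subvarieties, with more constants) are those of the starting
file `LocalCriterion`.

**Rings.** Let `Λ ⊂ ℂ` be a finitely generated ring (a ring with an injection `ι : Λ → ℂ`), `K` a
countable field with `Λ ⊆ K ⊂ ℂ`, `f_l ∈ ℤ[t_1, …, t_q]`, `0 ≤ l ≤ n (n - 1) / 2`, irreducible over
`ℤ` and over `K`, none dividing another, and `h ∈ Λ[t_1, …, t_q]` not divisible by any `f_l` over `K`.
For an integral point `t` let `S_t` (`ringS`) be the integral closure of `Λ[1 / h (t)]` in the field of
complex numbers; it contains the ring of all algebraic integers.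

**Subvarieties.** Let `X ⊂ Y(1)^n` (`AllGood`) be given by
* a projective algebraic set `B ⊆ P^N`, defined by forms over `S_t`,
* quotients `f_i = A_i / B_i` of forms of the same degree `d_i` over `S_t`, whose divisors are in general
  position over all the points of `Spec S_t` (`GeneralOver`): for every homomorphism of `S_t` to a
  field no point of `B` over this field lies on `m + 1` of the divisors (`m` is the expected dimension
  of the image),
* functions `s_i` integral over `S_t[j]`, `R_i (s_i, j) = 0` with `R_i` monic of degree at most `T`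
  whose nonzero coefficients are units of `S_t` (`UnitCoefficients`; level one: `R_i = S - J`,
  `s_i = j`, `T = 1`; in general modular functions of any levels without poles in the upper half plane),
* the scalings `c_i = ∏_l f_l (t) ^ (e_{l i})`, where the exponents `e_{l i}` are positive and
  independent (`q e_{l i} e_{l j} e_{l' i} e_{l' j}` is not a square for `l ≠ l'`, `i ≠ j`,
  `1 ≤ q ≤ T^8`).
`X` is the set of all `x` such that for some `y ∈ B` and some `s` we have `R_i (s_i, x_i) = 0` and
`c_i s_i = A_i (y) / B_i (y)`.

**Theorem.** For every `ε > 0` the following holds for all but `O(H^(q - 1 + ε))` integral points `t`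
with `max |t_j| ≤ H`, simultaneously for ALL such `X` (all `N`, `m`, all `B`, `A_i`, `B_i`, `R_i` over
`S_t`, all degrees, all `T`, all independent exponents `e`): `X` has no atypical intersection with
special subvarieties `Z` of `Y(1)^n`. That is, every irreducible closed subset of `X ∩ Z` has dimension
at most `dim Z + m - n`, and the same bound holds for the transcendence degrees over `K` of the points
of `X ∩ Z`. The constant coordinates of `Z` can be special points or arbitrary elements of `S_t`.

The exponent `q - 1` is the best possible: the hypersurfaces `f_l = 0` themselves can contain as many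
integral points. In the earlier results (`MultiparameterFamilies`; the starting files for one
parameter) the exceptional set belongs to one algebraic family of subvarieties; here there is one
exceptional set for all subvarieties of this kind, whose equations can depend on `t` in an arbitrary
way. The proof combines the starting `LocalCriterion`, applied over the ring `S_t`, with the count
`Pool.Agent.Q41.ZP.exists_primes`: for all but `O(H^(q - 1 + ε))` points `t` there are prime ideals
`𝔭_l` of `Λ` with `f_l (t) ∈ 𝔭_l` and `f_{l'} (t), h (t) ∉ 𝔭_l` for `l' ≠ l`.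
-/

set_option autoImplicit false

namespace Pool.Agent.Results.MP_d83ecd_ag.AllFamilies

open MvPolynomial
open Pool.Agent.Results.MP_d83ecd_ag.LocalCriterion
  (scaledImage InGeneralPosition IndependentExponents NoAtypical)

/-- The value of a polynomial at an integral point. -/
noncomputable def valueOf {Λ : Type} [CommRing Λ] {q : ℕ} (t : Fin q → ℤ)
    (h : MvPolynomial (Fin q) Λ) : Λ :=
  eval (fun i => (t i : Λ)) h

/-- The ring `Λ[1 / h (t)]`. -/
def localized {Λ : Type} [CommRing Λ] (ι : Λ →+* ℂ) {q : ℕ} (h : MvPolynomial (Fin q) Λ)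
    (t : Fin q → ℤ) : Subring ℂ :=
  Subring.closure (insert (ι (valueOf t h))⁻¹ (Set.range ι))

/-- The ring `S_t`, the integral closure of `Λ[1 / h (t)]` in the field of complex numbers. -/
noncomputable def ringS {Λ : Type} [CommRing Λ] (ι : Λ →+* ℂ) {q : ℕ}
    (h : MvPolynomial (Fin q) Λ) (t : Fin q → ℤ) : Subalgebra (localized ι h t) ℂ :=
  integralClosure (localized ι h t) ℂ

/-- The divisors of the `A i / B i` are in general position over all the points of `Spec S`: for every
homomorphism of `S` to a field no point of `B` over this field lies on `m + 1` of them. -/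
def GeneralOver {S : Type} [CommRing S] {N n : ℕ} {κ : Type} (m : ℕ)
    (G : κ → MvPolynomial (Fin (N + 1)) S) (A B : Fin n → MvPolynomial (Fin (N + 1)) S) : Prop :=
  ∀ (E : Type) [Field E] (φ : S →+* E), InGeneralPosition φ m G A B

/-- `R` is monic, has degree at most `T` in both variables, and its nonzero coefficients are units. -/
def UnitCoefficients {S : Type} [CommRing S] (T : ℕ) (R : Polynomial (Polynomial S)) : Prop :=
  R.Monic ∧ ∀ u w, (R.coeff u).coeff w ≠ 0 → u ≤ T ∧ w ≤ T ∧ IsUnit ((R.coeff u).coeff w)

/-- All images of projective algebraic sets under maps in general position over the ring `S ⊂ ℂ`,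
scaled by the `c e` for independent exponents `e`, have no atypical intersections. -/
def ImagesGood {S : Type} [CommRing S] (σ : S →+* ℂ) (K : Subfield ℂ) (n : ℕ)
    (c : (Fin (n.choose 2 + 1) → Fin n → ℕ) → Fin n → S) : Prop :=
  ∀ (κ : Type) (N m T : ℕ) (G : κ → MvPolynomial (Fin (N + 1)) S)
    (A B : Fin n → MvPolynomial (Fin (N + 1)) S) (d : Fin n → ℕ)
    (R : Fin n → Polynomial (Polynomial S)) (e : Fin (n.choose 2 + 1) → Fin n → ℕ),
    (∀ l, ∃ w, (G l).IsHomogeneous w) →
    (∀ i, (A i).IsHomogeneous (d i)) → (∀ i, (B i).IsHomogeneous (d i)) →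
    GeneralOver m G A B → (∀ i, UnitCoefficients T (R i)) → IndependentExponents T e →
    NoAtypical σ K m (scaledImage σ G A B R (c e))

/-- All images of projective algebraic sets under maps in general position over `S_t`, scaled by the
values of the `∏ l, f l ^ e l i`, have no atypical intersections. -/
def AllGood {Λ : Type} [CommRing Λ] (ι : Λ →+* ℂ) (K : Subfield ℂ) {q : ℕ} (n : ℕ)
    (f : Fin (n.choose 2 + 1) → MvPolynomial (Fin q) ℤ) (h : MvPolynomial (Fin q) Λ)
    (t : Fin q → ℤ) : Prop :=
  ImagesGood (ringS ι h t).val.toRingHom K n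
    fun e i => ((∏ l, eval t (f l) ^ e l i : ℤ) : ringS ι h t)

/-- Zilber-Pink with no atypical intersections at all for all images of projective algebraic sets in
`Y(1)^n` under maps in general position over `S_t`, scaled by the values of polynomials, for all but
few integral points. -/
theorem result (Λ : Type) [CommRing Λ] [Algebra.FiniteType ℤ Λ] (ι : Λ →+* ℂ)
    (hι : Function.Injective ι) (K : Subfield ℂ) [Countable K] (hK : ∀ a, ι a ∈ K) (q n : ℕ)
    (f : Fin (n.choose 2 + 1) → MvPolynomial (Fin q) ℤ) (hf : ∀ l, Irreducible (f l))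
    (hfK : ∀ l, Irreducible (map (Int.castRingHom K) (f l)))
    (hf2 : ∀ l l', l ≠ l' → ¬ f l ∣ f l') (h : MvPolynomial (Fin q) Λ)
    (hh : ∀ l, ¬ map (Int.castRingHom K) (f l) ∣ map (ι.codRestrict K hK) h)
    (ε : ℝ) (hε : 0 < ε) :
    ∃ C : ℝ, ∀ H : ℕ, 1 ≤ H →
      (Set.ncard {t : Fin q → ℤ | (∀ j, |t j| ≤ (H : ℤ)) ∧ ¬ AllGood ι K n f h t} : ℝ) ≤
        C * (H : ℝ) ^ ((q : ℝ) - 1 + ε) := by
  classical
  obtain ⟨C, hC⟩ := Pool.Agent.Q41.ZP.exists_primes (ι.codRestrict K hK) f hf hfK hf2
    (fun _ : Unit => h) (fun l _ => hh l) hε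
  refine ⟨C, fun H hH => le_trans ?_ (hC H hH)⟩
  rw [Nat.cast_le]
  refine Set.ncard_le_ncard ?_ ((Fintype.piFinset fun _ : Fin q =>
    Finset.Icc (-(H : ℤ)) H).finite_toSet.subset fun t ht => ?_)
  swap
  · exact Fintype.mem_piFinset.2 fun j => Finset.mem_Icc.2 (abs_le.1 (ht.1 j))
  rintro t ⟨ht1, ht3⟩
  refine ⟨ht1, ?_⟩
  rintro ⟨hf0, hpl⟩
  apply ht3
  intro κ N m T G A B d R e hG hA hB hpos hR he
  have hcount : Countable (algebraicClosure K ℂ).toSubfield :=
    Pool.Agent.Q77.ZP.countable_algClosure K
  have key := LocalCriterion.result.1 (ringS ι h t) (ringS ι h t).val.toRingHom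
    Subtype.val_injective (algebraicClosure K ℂ).toSubfield
    (fun a => Pool.Agent.Q77.ZP.int_mem ι (valueOf t h) K hK a.2) κ N n m T G hG A B d hA hB R
    (fun i => (hR i).1) (fun i u w h0 => ⟨((hR i).2 u w h0).1, ((hR i).2 u w h0).2.1⟩)
    (fun i => ((∏ l, eval t (f l) ^ e l i : ℤ) : ringS ι h t)) e he fun l => by
      obtain ⟨𝔭, h𝔭, hf𝔭, hf𝔭', hh𝔭⟩ := hpl l
      obtain ⟨F, hF, hFc, red, hred⟩ := Pool.Agent.Q77.ZP.place ι hι (valueOf t h) 𝔭 (hh𝔭 ())
      let red' : ringS ι h t →+* F := red
      have hint : ∀ a : ℤ, red' (a : ringS ι h t) = 0 ↔ (a : Λ) ∈ 𝔭 := by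
        intro a
        rw [← hred, map_intCast, map_intCast, map_intCast]
      refine ⟨{
        F := F
        red := red'
        general := hpos F red'
        coeff_ne := fun i u w h0 => (((hR i).2 u w h0).2.2.map red').ne_zero
        ϖ := ((eval t (f l) : ℤ) : ringS ι h t)
        red_ϖ := (hint _).2 hf𝔭
        order := fun i => ?_ }⟩
      refine ⟨1, ((∏ l' ∈ Finset.univ.erase l, eval t (f l') ^ e l' i : ℤ) : ringS ι h t),
        ?_, ?_, ?_⟩
      · rw [map_one]
        exact one_ne_zero
      · rw [Ne, hint, Int.cast_prod]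
        intro h0
        obtain ⟨l', hl', h2⟩ := (Ideal.IsPrime.prod_mem_iff (hp := h𝔭)).1 h0
        rw [Int.cast_pow] at h2
        exact hf𝔭' l' (Finset.ne_of_mem_erase hl') (h𝔭.mem_of_pow_mem _ h2)
      · rw [one_mul, ← Int.cast_pow, ← Int.cast_mul]
        congr 1
        exact (Finset.prod_erase_mul Finset.univ (fun l' => eval t (f l') ^ e l' i)
          (Finset.mem_univ l)).symm
  intro r Z
  obtain ⟨k1, k2⟩ := key r Z
  refine ⟨k1, fun x hx S hS => k2 x hx S ?_⟩
  exact hS.extendScalars (algebraicClosure K ℂ)

end Pool.Agent.Results.MP_d83ecd_ag.AllFamilies
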