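import Pool.Agent.Q57.ZP.Uni
import Pool.Agent.Q41.ZP.Ind
import Pool.Agent.Results.MP_d83ecd_ag.AnyLevelScaledImages

/-!
# MP_d83ecd_ag: Zilber-Pink for all but finitely many of the scalings by products of powers of the
values of binary forms at pairs of coprime integers, any level and any dimension

The setting is that of the starting file `AnyLevelScaledImages`, whose definitions (`scaledImage`,
`NoAtypical`, `valueAt`, `OnB`, special subvarieties with more constants) are used here: for a
projective algebraic set `B ⊆ P^N` (forms `G`), quotients of forms `f_i = A_i / B_i` such that no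
point of `B` is on `m + 1` of their divisors, regular functions `s_i` on modular curves of any level
(`R_i (s_i, j) = 0`), and positive integers `c_i`, `X_c ⊆ Y(1)^n` is the image of the set of all
`(P_1, …, P_n)` such that `c_i s_i (P_i) = f_i (y)` for some `y ∈ B`.

Let `F_1, …, F_M` be binary forms with integral coefficients, `F_l (s, t) = t ^ (deg f_l) f_l (s / t)`
with pairwise coprime polynomials `f_l`, such that the product of any `M - L + 1` of them has at
least three different linear factors over `ℂ`, where `L = n² (T + 1)⁴ + 1` (for example `M ≥ L + 2` and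
the `F_l` are non-constant, or `M = L` and each `F_l` has three different linear factors). Let
`G_i (s, t) = t ^ (N_i) g_i (s / t)` be arbitrary forms of any degrees `N_i`, coprime to the `F_l`, and
let `a_{l i} > 0` be exponents such that `a_{l i} a_{l j} a_{l' i} a_{l' j}` is not a square for
`l ≠ l'`, `i ≠ j`.

**Theorem.** For all but finitely many pairs `(s, t)` of coprime integers the set `X_c`,
`c_i = |G_i (s, t)| ∏_l |F_l (s, t)| ^ (a_{l i})`, has no atypical intersection with special
subvarieties: every irreducible closed subset `A` of `X_c ∩ Z` satisfies `dim A ≤ dim Z + m - n`, and the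
transcendence degree of every point of `X_c ∩ Z` is at most `dim Z + m - n`.

The starting file treats a positive proportion of all vectors `c`, and the family
`c_i = ∏_l (t + l) ^ (a_{l i})`, `t ≤ H`, up to a power of `log H` exceptions. The `c_i` are not
functions of `s / t`: the degrees of the forms `G_i ∏_l F_l ^ (a_{l i})` are arbitrary, and the
results on one-parameter families with rational parameter do not apply. The proof uses Ridout's
theorem (in the form of Mahler's theorem: the greatest prime factor of the value of a binary form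
with three different linear factors tends to infinity).
-/

set_option autoImplicit false

namespace Pool.Agent.Results.MP_d83ecd_ag.BinaryForms

open Pool.Agent.Results.MP_d83ecd_ag.AnyLevelScaledImages

/-- The value at `(s, t)` of the binary form of degree `N` with the coefficients of `f`; it is
`t ^ N * f (s / t)`, if `t ≠ 0` and the degree of `f` is at most `N`. -/
def form (N : ℕ) (f : Polynomial ℤ) (s t : ℤ) : ℤ :=
  ∑ i ∈ Finset.range (N + 1), f.coeff i * s ^ i * t ^ (N - i)

/-- Zilber-Pink with no atypical intersections for all but finitely many of the scalings of a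
projective algebraic set mapped to a product of modular curves of any level by the values of binary
forms at pairs of coprime integers. -/
theorem result {κ : Type*} (K : Subfield ℂ) [Countable K] (N n m : ℕ)
    (G : κ → MvPolynomial (Fin (N + 1)) K) (hG : ∀ k, ∃ e, (G k).IsHomogeneous e)
    (A B : Fin n → MvPolynomial (Fin (N + 1)) K) (d : Fin n → ℕ)
    (hA : ∀ i, (A i).IsHomogeneous (d i)) (hB : ∀ i, (B i).IsHomogeneous (d i))
    (hpos : ∀ I : Finset (Fin n), I.card = m + 1 → ∀ y, OnB G y →
      ∃ i ∈ I, MvPolynomial.aeval y (A i) * MvPolynomial.aeval y (B i) ≠ 0)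
    (R : Fin n → Polynomial (Polynomial K)) (hR : ∀ i, (R i).Monic)
    (T : ℕ) (hT : ∀ i u w, ((R i).coeff u).coeff w ≠ 0 → u ≤ T ∧ w ≤ T)
    (Γ : Finset ℂ) (hΓ : ∀ γ ∈ Γ, γ ∈ K) (L : ℕ) (hL : L = n * n * (T + 1) ^ 4 + 1)
    (M : ℕ) (a : Fin M → Fin n → ℕ) (ha : ∀ l i, 0 < a l i)
    (hsq : ∀ l l', l ≠ l' → ∀ i j, i ≠ j → ¬ IsSquare (a l i * a l j * (a l' i * a l' j)))
    (f : Fin M → Polynomial ℤ) (hf0 : ∀ l, f l ≠ 0)
    (hf : ∀ I : Finset (Fin M), M < I.card + L → 3 ≤ ((∏ l ∈ I, f l).rootSet ℂ).ncard)
    (hcop : ∀ l l', l ≠ l' →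
      IsCoprime ((f l).map (Int.castRingHom ℚ)) ((f l').map (Int.castRingHom ℚ)))
    (g : Fin n → Polynomial ℤ) (hg : ∀ i, g i ≠ 0) (e : Fin n → ℕ)
    (he : ∀ i, (g i).natDegree ≤ e i)
    (hfg : ∀ l i, IsCoprime ((f l).map (Int.castRingHom ℚ)) ((g i).map (Int.castRingHom ℚ))) :
    {z : ℤ × ℤ | IsCoprime z.1 z.2 ∧ ¬ NoAtypical K Γ m (scaledImage G A B R fun i =>
      (form (e i) (g i) z.1 z.2).natAbs *
        ∏ l, (form (f l).natDegree (f l) z.1 z.2).natAbs ^ a l i)}.Finite := by
  classical
  obtain ⟨D, hD, -, -⟩ := AnyLevelScaledImages.result K N n m G hG A B d hA hB hpos R hR T hT Γ hΓ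
    L hL
  refine (Pool.Agent.Q57.ZP.family_union L f hf0 hf hcop g hg e he hfg D).subset ?_
  rintro z ⟨hz, ht3⟩
  refine ⟨hz, ?_⟩
  rintro ⟨hfz, hgz, S, p, hS, hp⟩
  apply ht3
  apply hD
  obtain ⟨h1, h2, h3, h4, h5, h6⟩ := Pool.Agent.Q57.ZP.reduce_hyp
    (u := fun l => (form (f l).natDegree (f l) z.1 z.2).natAbs)
    (b := fun i => (form (e i) (g i) z.1 z.2).natAbs) (a := a) hS
    (fun l => Int.natAbs_ne_zero.2 (hfz l)) (fun i => Int.natAbs_ne_zero.2 (hgz i)) hp
  have h7 : Spread L D (fun i => ((form (e i) (g i) z.1 z.2).natAbs *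
      ∏ l ∈ Sᶜ, (form (f l).natDegree (f l) z.1 z.2).natAbs ^ a l i) *
      ∏ l : Fin L, (form (f (S.orderEmbOfFin hS l)).natDegree
        (f (S.orderEmbOfFin hS l)) z.1 z.2).natAbs ^ a (S.orderEmbOfFin hS l) i) :=
    Pool.Agent.Q41.ZP.spreadL_of_primes (D := D)
    (fun l i => a (S.orderEmbOfFin hS l) i) (fun l i => ha _ i)
    (fun l l' hll => hsq _ _ fun h => hll ((S.orderEmbOfFin hS).injective h))
    h1 h2 (fun l => p (S.orderEmbOfFin hS l)) h3 h4 h5 h6
  have h8 : (fun i => (form (e i) (g i) z.1 z.2).natAbs *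
      ∏ l, (form (f l).natDegree (f l) z.1 z.2).natAbs ^ a l i) =
      (fun i => ((form (e i) (g i) z.1 z.2).natAbs *
      ∏ l ∈ Sᶜ, (form (f l).natDegree (f l) z.1 z.2).natAbs ^ a l i) *
      ∏ l : Fin L, (form (f (S.orderEmbOfFin hS l)).natDegree
        (f (S.orderEmbOfFin hS l)) z.1 z.2).natAbs ^ a (S.orderEmbOfFin hS l) i) := by
    funext i
    exact Pool.Agent.Q57.ZP.prod_reduce (fun l => (form (f l).natDegree (f l) z.1 z.2).natAbs)
      (fun i => (form (e i) (g i) z.1 z.2).natAbs) a S hS i
  rw [h8]
  exact h7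

end Pool.Agent.Results.MP_d83ecd_ag.BinaryForms
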