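import Pool.Agent.Q41.ZP.KFam
import Pool.Agent.Y92.ZX.Ram
import Pool.Agent.Results.MP_dd1803_nt.UniformRationalCurves

/-!
# MP_d83ecd_ag: Zilber-Pink for all but `O(H^(q - 1 + ε))` members of families of rational curves in
`Y(1)^n` with any number `q` of parameters and one degenerate hypersurface

`Y(1)^n` is identified with `ℂ^n` by the elliptic modular function `jj = j = E₄³ / Δ`. The special
subvarieties (`SpecialVariety`, with more constants), `atypical` (the points on special subvarieties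
of codimension at least two) and `Isogenous` are those of the starting file
`MP_dd1803_nt.UniformRationalCurves`.

**Families.** Let `F` be a number field, `σ` an embedding in `ℂ`, and `a_i, b_i` polynomials in one
variable over `𝓞_F[t_1, …, t_q]`, of degree at most `D_i ≤ d`, for `i = 1, …, n`: for all values of
the parameters `t` they give forms `a_i (t; s, u)`, `b_i (t; s, u)` of degree `D_i` in `(s, u)`. Let
`f ∈ ℤ[t_1, …, t_q]` be irreducible over `ℤ` and over `F` and `w ≥ 1`. Let `C_t` (`member`, for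
`t ∈ ℤ^q`) be the rational curve in `Y(1)^n` with the parametrization

  `x_i = a_i (t; s, u) / (f (t) ^ w b_i (t; s, u))`, `(s : u) ∈ ℙ^1`.

So the curve tends to the cusp `(∞, …, ∞)` if the parameter tends to the hypersurface `f = 0`. We
assume that for one complex point `β` of this hypersurface the rational functions
`a_i (β; s, u) / b_i (β; s, u)` have degree `D_i`, and that the zeros and poles of the `i`-th one are
different from those of the `j`-th one for `i ≠ j` (nonvanishing of the resultants). There is no other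
condition: the parameters can be for example all coefficients of all the forms `a_i` and `b_i`, and
`f` can be any irreducible polynomial in them.

**Theorem.** For every `ε > 0`, for all but `O(H^(q - 1 + ε))` of the integral points `t` of the
parameter space with `max |t_j| ≤ H` (of about `(2 H)^q`) the Zilber-Pink conjecture is true for `C_t`:
it is not contained in a proper special subvariety, and has only finitely many points on special
subvarieties of codimension at least two. More precisely, there are at most `9 n^4 d^2 f(t)^2` of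
them, and each of them has two coordinates which are connected by an isogeny of degree at most
`|f(t)|^(17 [F:ℚ] d |f(t)|)`.

One degenerate hypersurface is sufficient, for all `n`. In `MP_130685_nt.RandomRationalCurves`
(starting file) the parameters are all the coefficients and `m`, for `f = m`, `F = ℚ`, and the number
of the exceptions is `o(H^q)`; `MP_22337f_ag` treats one-parameter families. The exponent `q - 1` is
the best possible, because of the hypersurface `f = 0`.

The proof: for all but `O(H^(q - 1 + ε))` integral points `t` the value `f (t)` has a prime divisor `p`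
above any given bound which does not divide the value of a given polynomial not divisible by `f`
(`Q41.ZP.Count2`). By Chevalley's theorem on constructible sets (`Q41.ZP.KPlace`) there is a place of
`F` above `p` at which the resultants for the curve `C_t` are units, so the explicit theorem of the
starting file can be applied to `C_t` at this place.
-/

namespace Pool.Agent.Results.MP_d83ecd_ag.FamiliesOfRationalCurves

open Pool.Agent.Results.MP_dd1803_nt.UniformRationalCurves Polynomial IsDedekindDomain NumberField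

/-- the value at an integral point of a polynomial over the ring of integers of `F` -/
noncomputable def evalZ {F : Type} [Field F] [NumberField F] {q : ℕ} (t : Fin q → ℤ) :
    MvPolynomial (Fin q) (𝓞 F) →+* 𝓞 F :=
  MvPolynomial.eval (fun j => (t j : 𝓞 F))

/-- the value at a complex point of a polynomial over the ring of integers of `F` -/
noncomputable def evalC {F : Type} [Field F] [NumberField F] (σ : F →+* ℂ) {q : ℕ}
    (β : Fin q → ℂ) : MvPolynomial (Fin q) (𝓞 F) →+* ℂ :=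
  MvPolynomial.eval₂Hom (σ.comp (algebraMap (𝓞 F) F)) β

/-- The value at `(s, u)` of the form of degree `D` defined by the polynomial `P`, for the parameter
`t`. -/
noncomputable def formAt {F : Type} [Field F] [NumberField F] (σ : F →+* ℂ) {q : ℕ} (D : ℕ)
    (P : (MvPolynomial (Fin q) (𝓞 F))[X]) (t : Fin q → ℤ) (s u : ℂ) : ℂ :=
  ∑ m ∈ Finset.range (D + 1), σ (algebraMap (𝓞 F) F (evalZ t (P.coeff m))) * s ^ m * u ^ (D - m)

/-- The rational curve `C_t`, with the parametrization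
`x_i = a_i (t; s, u) / (f (t) ^ w b_i (t; s, u))`. -/
def member {F : Type} [Field F] [NumberField F] (σ : F →+* ℂ) {q n : ℕ} (D : Fin n → ℕ)
    (f : MvPolynomial (Fin q) ℤ) (w : ℕ) (a b : Fin n → (MvPolynomial (Fin q) (𝓞 F))[X])
    (t : Fin q → ℤ) : Set (Fin n → ℂ) :=
  {x | ∃ s u : ℂ, (s ≠ 0 ∨ u ≠ 0) ∧ ∀ i,
    ((MvPolynomial.eval t f : ℤ) : ℂ) ^ w * formAt σ (D i) (b i) t s u * x i =
      formAt σ (D i) (a i) t s u}

/-- The Zilber-Pink conjecture for the curve `S`, with bounds for the number of its points on special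
subvarieties of codimension at least two, and for the isogenies. -/
def ZilberPink (Γ : Finset ℂ) {n : ℕ} (S : Set (Fin n → ℂ)) (A B : ℕ) : Prop :=
  (atypical Γ S).Finite ∧ (atypical Γ S).ncard ≤ A ∧
    (∀ x ∈ atypical Γ S, ∃ j l : Fin n, j ≠ l ∧ ∃ N : ℕ, 0 < N ∧ N ≤ B ∧
      Isogenous N (x j) (x l)) ∧
    ∀ (r : ℕ) (Z : SpecialVariety Γ n r), r < n → ¬ S ⊆ Z.locus

theorem result (F : Type) [Field F] [NumberField F] (σ : F →+* ℂ) (n q d w : ℕ) (hw : 0 < w)
    (D : Fin n → ℕ) (hD : ∀ i, 0 < D i ∧ D i ≤ d)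
    (a b : Fin n → (MvPolynomial (Fin q) (𝓞 F))[X]) (ha : ∀ i, (a i).natDegree ≤ D i)
    (hb : ∀ i, (b i).natDegree ≤ D i) (f : MvPolynomial (Fin q) ℤ) (hf : Irreducible f)
    (hfF : Irreducible (MvPolynomial.map (Int.castRingHom F) f)) (β : Fin q → ℂ)
    (hβ : MvPolynomial.aeval β f = 0)
    (hself : ∀ i, evalC σ β (resultant (a i) (b i) (D i) (D i)) ≠ 0)
    (hpair : ∀ i j, i ≠ j →
      evalC σ β (resultant (a i * b i) (a j * b j) (D i + D i) (D j + D j)) ≠ 0)
    (Γ : Finset ℂ) (hΓ : ∀ γ ∈ Γ, IsAlgebraic ℚ γ) (ε : ℝ) (hε : 0 < ε) :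
    ∃ C : ℝ, ∀ H : ℕ, 1 ≤ H → (Set.ncard {t : Fin q → ℤ | (∀ j, |t j| ≤ (H : ℤ)) ∧
      ¬ (MvPolynomial.eval t f ≠ 0 ∧ ZilberPink Γ (member σ D f w a b t)
        (9 * n ^ 4 * d ^ 2 * (MvPolynomial.eval t f).natAbs ^ 2)
        ((MvPolynomial.eval t f).natAbs ^
          (17 * Module.finrank ℚ F * d * (MvPolynomial.eval t f).natAbs)))} : ℝ) ≤
      C * (H : ℝ) ^ ((q : ℝ) - 1 + ε) := by
  classical
  have hfd := Pool.Agent.Q41.ZP.totalDegree_ne_zero_of_irreducible hfF
  -- the resultants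
  set E : MvPolynomial (Fin q) (𝓞 F) := (∏ i, resultant (a i) (b i) (D i) (D i)) *
    ∏ ij : Fin n × Fin n, (if ij.1 = ij.2 then 1 else
      resultant (a ij.1 * b ij.1) (a ij.2 * b ij.2) (D ij.1 + D ij.1) (D ij.2 + D ij.2)) with hE
  have hEβ : evalC σ β E ≠ 0 := by
    rw [hE, map_mul, map_prod, map_prod]
    refine mul_ne_zero (Finset.prod_ne_zero_iff.2 fun i _ => hself i)
      (Finset.prod_ne_zero_iff.2 fun ij _ => ?_)
    split_ifs with h
    · rw [map_one]
      exact one_ne_zero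
    · exact hpair _ _ h
  have hEf : ¬ MvPolynomial.map (Int.castRingHom F) f ∣ MvPolynomial.map (algebraMap (𝓞 F) F) E := by
    rintro ⟨u, hu⟩
    apply hEβ
    have h1 : evalC σ β E = MvPolynomial.eval₂Hom σ β (MvPolynomial.map (algebraMap (𝓞 F) F) E) := by
      rw [evalC, MvPolynomial.coe_eval₂Hom, MvPolynomial.coe_eval₂Hom, MvPolynomial.eval₂_map]
    have h2 : MvPolynomial.eval₂Hom σ β (MvPolynomial.map (Int.castRingHom F) f) = 0 := by
      rw [MvPolynomial.coe_eval₂Hom, MvPolynomial.eval₂_map, ← hβ, MvPolynomial.aeval_def]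
      congr 1
      exact RingHom.ext_int _ _
    rw [h1, hu, map_mul, h2, zero_mul]
  obtain ⟨g, hg1, hg2⟩ := Pool.Agent.Q41.ZP.exists_prime (algebraMap (𝓞 F) F) hf.prime hfd
    hfF.prime E hEf
  -- the bound for the primes
  have hΓm : ∀ γ : Γ, ∃ m : ℕ, m ≠ 0 ∧ IsIntegral ℤ ((m : ℂ) * (γ : ℂ)) := by
    intro γ
    have h1 : IsAlgebraic ℤ (γ : ℂ) := by
      have := hΓ γ γ.2
      exact (IsFractionRing.isAlgebraic_iff ℤ ℚ ℂ).2 this
    obtain ⟨y, hy, hint⟩ := h1.exists_integral_multiple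
    refine ⟨y.natAbs, Int.natAbs_ne_zero.2 hy, ?_⟩
    rw [Algebra.smul_def, eq_intCast] at hint
    rcases Int.natAbs_eq y with h | h
    · rw [h] at hint
      simpa using hint
    · rw [h] at hint
      have h2 := hint.neg
      simpa using h2
  choose mm hmm0 hmm using hΓm
  obtain ⟨D₁, hD₁⟩ : ∃ D₁ : ℕ, ∀ (v : HeightOneSpectrum (𝓞 F)) (p : ℕ), p.Prime → D₁ < p →
      (p : 𝓞 F) ∈ v.asIdeal → (p : 𝓞 F) ∉ v.asIdeal ^ 2 := by
    have hfin := Pool.Agent.Y92.ZX.ram_fin F 0
    have hfin2 : {p : ℕ | p.Prime ∧ ∃ v : HeightOneSpectrum (𝓞 F), (p : 𝓞 F) ∈ v.asIdeal ∧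
        (p : 𝓞 F) ∈ v.asIdeal ^ 2}.Finite := by
      have h1 : {p : ℕ | p.Prime ∧ ∃ v : HeightOneSpectrum (𝓞 F), (p : 𝓞 F) ∈ v.asIdeal ∧
          (p : 𝓞 F) ∈ v.asIdeal ^ 2} ⊆ ⋃ v ∈ {v : HeightOneSpectrum (𝓞 F) |
            ∃ p : ℕ, p.Prime ∧ (p : 𝓞 F) ∈ v.asIdeal ∧ (p ≤ 0 ∨ (p : 𝓞 F) ∈ v.asIdeal ^ 2)},
            {p : ℕ | p.Prime ∧ (p : 𝓞 F) ∈ v.asIdeal} := by
        rintro p ⟨hp, v, h1, h2⟩
        simp only [Set.mem_iUnion]
        exact ⟨v, ⟨p, hp, h1, Or.inr h2⟩, hp, h1⟩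
      refine (hfin.biUnion fun v _ => Set.Subsingleton.finite ?_).subset h1
      rintro p ⟨hp, hpv⟩ p' ⟨hp', hpv'⟩
      by_contra hne
      have hcop : IsCoprime (p : ℤ) (p' : ℤ) :=
        Nat.isCoprime_iff_coprime.2 ((Nat.coprime_primes hp hp').2 hne)
      obtain ⟨x, y, hxy⟩ := hcop
      apply v.isPrime.ne_top
      rw [Ideal.eq_top_iff_one]
      have h3 := congrArg (fun z : ℤ => (z : 𝓞 F)) hxy
      simp only [Int.cast_add, Int.cast_mul, Int.cast_natCast, Int.cast_one] at h3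
      rw [← h3]
      exact v.asIdeal.add_mem (v.asIdeal.mul_mem_left _ hpv) (v.asIdeal.mul_mem_left _ hpv')
    obtain ⟨B, hB⟩ := hfin2.bddAbove
    refine ⟨B, fun v p hp hBp hpv h2 => ?_⟩
    have := hB ⟨hp, v, hpv, h2⟩
    omega
  obtain ⟨C, hC⟩ := Pool.Agent.Q41.ZP.count_sym2 (fun _ : Fin 1 => f) (fun _ => hf) (fun _ => hfd)
    (fun l l' hll => absurd (Subsingleton.elim l l') hll) (ι := Unit) (fun _ _ => g)
    (fun _ _ => hg1) (16 * (d + 1) ^ 4 + D₁ + ∑ γ : Γ, mm γ) hε
  refine ⟨C, fun H hH => le_trans ?_ (hC H hH)⟩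
  rw [Nat.cast_le]
  refine Set.ncard_le_ncard ?_ ((Fintype.piFinset fun _ : Fin q =>
    Finset.Icc (-(H : ℤ)) H).finite_toSet.subset fun t ht => ?_)
  swap
  · exact Fintype.mem_piFinset.2 fun j => Finset.mem_Icc.2 (abs_le.1 (ht.1 j))
  rintro t ⟨ht1, ht3⟩
  refine ⟨ht1, ?_⟩
  rintro ⟨hf0, p, hp1, -, hp3⟩
  apply ht3
  obtain ⟨hpp, hpD, hpf⟩ := hp1 0
  set P := p 0 with hPdef
  have hft : MvPolynomial.eval t f ≠ 0 := hf0 0
  refine ⟨hft, ?_⟩
  obtain ⟨𝔭, h𝔭, hP𝔭, hE𝔭⟩ := hg2 P hpp t hpf (hp3 0 ())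
  have h𝔭0 : 𝔭 ≠ ⊥ := by
    rintro rfl
    rw [Ideal.mem_bot] at hP𝔭
    exact hpp.ne_zero (by exact_mod_cast hP𝔭)
  let v : HeightOneSpectrum (𝓞 F) := ⟨𝔭, h𝔭, h𝔭0⟩
  have hint : ∀ x : 𝓞 F, v.valuation F (algebraMap (𝓞 F) F x) ≤ 1 := v.valuation_le_one
  have hunit : ∀ x : 𝓞 F, x ∉ 𝔭 → v.valuation F (algebraMap (𝓞 F) F x) = 1 := by
    intro x hx
    refine le_antisymm (hint x) ?_
    by_contra h
    push Not at h
    exact hx ((v.valuation_lt_one_iff_mem x).1 h)
  -- the residue field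
  have hfield : Finite (𝓞 F ⧸ v.asIdeal) := Ideal.finiteQuotientOfFreeOfNeBot _ h𝔭0
  obtain ⟨k, hk, hk2⟩ : ∃ k : ℕ, Nat.card (𝓞 F ⧸ v.asIdeal) = P ^ k ∧
      k ≤ Module.finrank ℚ F := by
    have h1 : Ideal.absNorm 𝔭 ∣ P ^ Module.finrank ℚ F := by
      have h2 : Ideal.absNorm 𝔭 ∣ Ideal.absNorm (Ideal.span {((P : ℕ) : 𝓞 F)}) :=
        Ideal.absNorm_dvd_absNorm_of_le ((Ideal.span_singleton_le_iff_mem _).2 hP𝔭)
      rw [Ideal.absNorm_span_singleton] at h2
      have h3 : ((P : ℕ) : 𝓞 F) = algebraMap ℤ (𝓞 F) (P : ℤ) := by simp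
      rw [h3, Algebra.norm_algebraMap, Int.natAbs_pow, Int.natAbs_natCast,
        RingOfIntegers.rank] at h2
      exact h2
    obtain ⟨k, hk1, hk2⟩ := (Nat.dvd_prime_pow hpp).1 h1
    exact ⟨k, hk2, hk1⟩
  -- the curve
  let a' : Fin n → F[X] := fun i => ((a i).map (evalZ t)).map (algebraMap (𝓞 F) F)
  let b' : Fin n → F[X] := fun i => ((b i).map (evalZ t)).map (algebraMap (𝓞 F) F)
  have hgood : GoodReduction v D a' b' := by
    refine ⟨fun i => ?_, fun i => ?_, fun i m => ?_, fun i m => ?_, fun i => ?_, fun i j hij => ?_⟩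
    · exact (natDegree_map_le.trans natDegree_map_le).trans (ha i)
    · exact (natDegree_map_le.trans natDegree_map_le).trans (hb i)
    · simp only [a', coeff_map]
      exact hint _
    · simp only [b', coeff_map]
      exact hint _
    · simp only [a', b']
      rw [resultant_map_map, resultant_map_map]
      refine hunit _ fun h => hE𝔭 ?_
      rw [hE, map_mul, map_prod, map_prod]
      exact 𝔭.mul_mem_right _ (Ideal.mem_of_dvd 𝔭 (Finset.dvd_prod_of_mem _ (Finset.mem_univ i)) h)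
    · simp only [a', b']
      rw [← Polynomial.map_mul, ← Polynomial.map_mul, ← Polynomial.map_mul, ← Polynomial.map_mul,
        resultant_map_map, resultant_map_map]
      refine hunit _ fun h => hE𝔭 ?_
      rw [hE, map_mul, map_prod, map_prod]
      refine 𝔭.mul_mem_left _ (Ideal.mem_of_dvd 𝔭
        (Finset.dvd_prod_of_mem _ (Finset.mem_univ ((i, j) : Fin n × Fin n))) ?_)
      rw [if_neg (show ¬ ((i, j) : Fin n × Fin n).1 = ((i, j) : Fin n × Fin n).2 from hij)]
      exact h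
  -- the scaling factor
  have hcast : (((MvPolynomial.eval t f : ℤ)) : F) =
      algebraMap (𝓞 F) F ((MvPolynomial.eval t f : ℤ) : 𝓞 F) := by simp
  have hfF0 : (((MvPolynomial.eval t f : ℤ)) : F) ≠ 0 := Int.cast_ne_zero.2 hft
  have hflt : v.valuation F (((MvPolynomial.eval t f : ℤ)) : F) < 1 := by
    rw [hcast, v.valuation_lt_one_iff_mem]
    obtain ⟨c, hc⟩ := hpf
    have hc' : (MvPolynomial.eval t f : ℤ) = (P : ℤ) * c := hc
    rw [hc', Int.cast_mul, Int.cast_natCast]
    exact v.asIdeal.mul_mem_right _ hP𝔭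
  obtain ⟨e₀, he₀, hve⟩ : ∃ e₀ : ℕ, 0 < e₀ ∧
      v.valuation F (((MvPolynomial.eval t f : ℤ)) : F) = WithZero.exp (-(e₀ : ℤ)) := by
    have hne : v.valuation F (((MvPolynomial.eval t f : ℤ)) : F) ≠ 0 :=
      (Valuation.ne_zero_iff _).2 hfF0
    obtain ⟨z, hz⟩ : ∃ z : ℤ, v.valuation F (((MvPolynomial.eval t f : ℤ)) : F) =
        WithZero.exp z := ⟨_, (WithZero.exp_log hne).symm⟩
    rw [hz, ← WithZero.exp_zero, WithZero.exp_lt_exp] at hflt
    refine ⟨z.natAbs, by omega, ?_⟩
    rw [hz]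
    congr 1
    omega
  let lam : Fin n → F := fun _ => ((((MvPolynomial.eval t f : ℤ)) : F) ^ w)⁻¹
  have hlam : ∀ i, v.valuation F (lam i) = WithZero.exp ((w * e₀ : ℕ) : ℤ) := by
    intro i
    simp only [lam]
    rw [map_inv₀, map_pow, hve, ← WithZero.exp_nsmul, ← WithZero.exp_neg]
    congr 1
    rw [nsmul_eq_mul]
    push_cast
    ring
  have hcurve : member σ D f w a b t = curve σ D lam a' b' := by
    ext x
    have hsf : σ (((MvPolynomial.eval t f : ℤ)) : F) = ((MvPolynomial.eval t f : ℤ) : ℂ) :=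
      map_intCast σ _
    have hf0' : (((MvPolynomial.eval t f : ℤ) : ℂ)) ^ w ≠ 0 := pow_ne_zero _ (Int.cast_ne_zero.2 hft)
    have hform : ∀ (i : Fin n) (Q : (MvPolynomial (Fin q) (𝓞 F))[X]) (s u : ℂ),
        formAt σ (D i) Q t s u = form σ (D i) ((Q.map (evalZ t)).map (algebraMap (𝓞 F) F)) s u := by
      intro i Q s u
      simp only [formAt, form, coeff_map]
    simp only [member, curve, Set.mem_ofPred_eq]
    refine exists_congr fun s => exists_congr fun u => and_congr Iff.rfl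
      (forall_congr' fun i => ?_)
    rw [hform, hform]
    change _ * form σ (D i) (b' i) s u * x i = form σ (D i) (a' i) s u ↔ _
    simp only [lam, map_inv₀, map_pow, hsf]
    constructor
    · intro h
      rw [← h]
      field_simp
    · intro h
      rw [mul_assoc, h]
      field_simp
  obtain ⟨h1, h2, h3, h4⟩ := Pool.Agent.Results.MP_dd1803_nt.UniformRationalCurves.result n d P k hpp (by omega) F σ v hP𝔭
    (hD₁ v P hpp (by omega) hP𝔭) hk D a' b' hD hgood lam (w * e₀) (Nat.mul_pos hw he₀) hlam Γ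
    (fun γ hγ => ⟨mm ⟨γ, hγ⟩, fun hdvd => by
      have h5 := Nat.le_of_dvd (Nat.pos_of_ne_zero (hmm0 ⟨γ, hγ⟩)) hdvd
      have h6 : mm ⟨γ, hγ⟩ ≤ ∑ γ : Γ, mm γ :=
        Finset.single_le_sum (f := fun γ : Γ => mm γ) (fun _ _ => Nat.zero_le _)
          (Finset.mem_univ (⟨γ, hγ⟩ : Γ))
      omega, hmm ⟨γ, hγ⟩⟩)
  have hPle : P ≤ (MvPolynomial.eval t f).natAbs :=
    Nat.le_of_dvd (Int.natAbs_pos.2 hft) (Int.natCast_dvd.1 hpf)
  rw [hcurve]
  refine ⟨h1, h2.trans ?_, fun x hx => ?_, h4⟩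
  · gcongr
  · obtain ⟨j, l, hjl, N, hN0, hN, hiso⟩ := h3 x hx
    refine ⟨j, l, hjl, N, hN0, hN.trans ?_, hiso⟩
    calc P ^ (17 * k * d * P) ≤ (MvPolynomial.eval t f).natAbs ^ (17 * k * d * P) := by gcongr
      _ ≤ _ := Nat.pow_le_pow_right (Int.natAbs_pos.2 hft) (by gcongr)

end Pool.Agent.Results.MP_d83ecd_ag.FamiliesOfRationalCurves
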