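import Pool.Agent.Q41.ZP.KFam
import Pool.Agent.Q41.ZP.CurveB
import Pool.Agent.Results.MP_d83ecd_ag.LocalCriterion

/-!
# MP_d83ecd_ag: Zilber-Pink for all but `O(H^(q - 1 + ε))` integral members of families with any number
`q` of parameters and arbitrary complex coefficients

The Shimura variety `Y(1)^n` is identified with `ℂ^n` by the elliptic modular function
`jj = j = E₄³ / Δ`. The definitions `scaledImage`, `NoAtypical`, `InGeneralPosition` (and the special
subvarieties, with more constants) are those of the starting file `LocalCriterion`.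

**Families.** Let `Λ ⊂ ℂ` be a finitely generated ring (a ring with an injection `ι : Λ → ℂ`), and
`K` a countable field with `Λ ⊆ K ⊂ ℂ`. Every finite set of complex numbers is in such a ring, so
the coefficients below can be arbitrary complex numbers, algebraic or transcendental. We consider
algebraic families `X_t` of subsets of `Y(1)^n` with parameters `t = (t_1, …, t_q)`, given by
* a family `B_t ⊆ P^N` of projective algebraic sets, defined by forms `G k` over `Λ[t_1, …, t_q]`,
* quotients `f_i = A_i / B_i` of forms of the same degree `d_i` over `Λ[t_1, …, t_q]`,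
* functions `s_i` integral over `Λ[t_1, …, t_q][j]`, `R_i (s_i, j) = 0` with `R_i` monic in the first
  variable, for instance modular functions of any level without poles in the upper half plane
  (level one: `R_i = S - J`, `s_i = j`), and `c_i ∈ Λ[t_1, …, t_q]`.

`X_t` (`member`, for integral `t`) is the set of all `x ∈ Y(1)^n` such that for some `y ∈ B_t` and
some `s` we have `R_i (s_i, x_i) = 0` and `c_i (t) s_i = A_i (y) / B_i (y)`.

The family degenerates along `M` hypersurfaces of the parameter space: let `f_l ∈ ℤ[t_1, …, t_q]`,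
`l = 1, …, M`, be irreducible over `ℤ` and over `K`, none dividing another, such that
* `c_i = g_i ∏_l f_l ^ (e_{l i})` with positive independent exponents and `g_i` not divisible by any
  `f_l` (over `K`); the nonzero coefficients of the `R_i` are not divisible by any `f_l` (no condition
  if the `R_i` do not depend on the parameters),
* for one complex point `β_l` of each hypersurface `f_l = 0` the divisors of the specializations of
  the `f_i` at `t = β_l` are in general position: no point of `B_{β_l}` lies on `m + 1` of them.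

**Theorem.** (1) If `M ≥ n (n - 1) / 2 + 1` then for every `ε > 0`, for all but `O(H^(q - 1 + ε))` of
the integral points `t` of the parameter space with `max |t_j| ≤ H` the set `X_t` has no atypical
intersection with special subvarieties `Z`: every irreducible closed subset of `X_t ∩ Z` has
dimension at most `dim Z + m - n`, and the same bound holds for the transcendence degrees over `K` of
the points of `X_t ∩ Z`. The constant coordinates of `Z` can be special points or any numbers
integral over `Λ`.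

(2) In the case of curves, `m = 1`, four hypersurfaces are sufficient, for all `n`: if `M ≥ 4` then for
all but `O(H^(q - 1 + ε))` of the integral points `t` no point of `X_t` is on a special subvariety of
codimension at least two.

The starting files treat one-parameter families (`MP_130685_nt.IntegralParameters`, with conditions
at all roots of the polynomials `P_l`, transcendental parameters in `LocalCriterion`); the general
members of multi-parameter families over `ℤ` are in our `MP_defd1c_ag.MultiparameterFamilies`. Here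
the coefficients are arbitrary, and the number of hypersurfaces for curves does not depend on `n`.
The exponent `q - 1` is the best possible: the hypersurfaces `f_l = 0` themselves can contain as many
integral points.

The proof: for all but `O(H^(q - 1 + ε))` integral points `t` the values `f_l (t)` have prime divisors
`p_l` which divide neither the other `f_l' (t)` nor the values of finitely many given polynomials not
divisible by `f_l` (`Q41.ZP.Count2`). By Chevalley's theorem on constructible sets, applied to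
`Spec Λ[t_1, …, t_q] → Spec ℤ[t_1, …, t_q]` near the generic point of the hypersurface `f_l = 0`
(`Q41.ZP.KPlace`), there is a prime ideal of `Λ` above `p_l` modulo which the divisors for `X_t` are in
general position. So the local criterion of the starting file `LocalCriterion` can be applied, and
for curves its variant with four places.
-/

namespace Pool.Agent.Results.MP_d83ecd_ag.MultiparameterFamilies

open Pool.Agent.Results.MP_d83ecd_ag.LocalCriterion Pool.Agent.Q41.ZP

/-- the value at a complex point of a polynomial over the ring `Λ`, which is mapped to `ℂ` by `ι` -/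
noncomputable def evalC {Λ : Type} [CommRing Λ] (ι : Λ →+* ℂ) {q : ℕ} (β : Fin q → ℂ) :
    MvPolynomial (Fin q) Λ →+* ℂ :=
  MvPolynomial.eval₂Hom ι β

/-- the value at an integral point of a polynomial over `Λ` -/
noncomputable def evalZ {Λ : Type} [CommRing Λ] {q : ℕ} (t : Fin q → ℤ) :
    MvPolynomial (Fin q) Λ →+* Λ :=
  MvPolynomial.eval (fun j => (t j : Λ))

/-- The member `X_t` of the family, for an integral point `t` of the parameter space. -/
noncomputable def member {Λ : Type} [CommRing Λ] (ι : Λ →+* ℂ) {q N n : ℕ} {κ : Type}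
    (G : κ → MvPolynomial (Fin (N + 1)) (MvPolynomial (Fin q) Λ))
    (A B : Fin n → MvPolynomial (Fin (N + 1)) (MvPolynomial (Fin q) Λ))
    (R : Fin n → Polynomial (Polynomial (MvPolynomial (Fin q) Λ)))
    (c : Fin n → MvPolynomial (Fin q) Λ) (t : Fin q → ℤ) : Set (Fin n → ℂ) :=
  scaledImage ι (fun l => MvPolynomial.map (evalZ t) (G l))
    (fun i => MvPolynomial.map (evalZ t) (A i)) (fun i => MvPolynomial.map (evalZ t) (B i))
    (fun i => (R i).map (Polynomial.mapRingHom (evalZ t))) (fun i => evalZ t (c i))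

/-- The exponents at the hypersurfaces are positive and independent. -/
def Independent {n M : ℕ} (T : ℕ) (e : Fin M → Fin n → ℕ) : Prop :=
  (∀ l i, 0 < e l i) ∧ ∀ l l', l ≠ l' → ∀ i j, i ≠ j → ∀ q, 0 < q → q ≤ T ^ 8 →
    ¬ IsSquare (q * (e l i * e l j * (e l' i * e l' j)))

/-- `f` divides `P` over the field `K`. -/
def DividesOver {Λ : Type} [CommRing Λ] (ι : Λ →+* ℂ) (K : Subfield ℂ) (hK : ∀ a, ι a ∈ K) {q : ℕ}
    (f : MvPolynomial (Fin q) ℤ) (P : MvPolynomial (Fin q) Λ) : Prop :=
  MvPolynomial.map (Int.castRingHom K) f ∣ MvPolynomial.map (ι.codRestrict K hK) P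

/-- Zilber-Pink with no atypical intersections for all but few integral members of multi-parameter
families with coefficients in a finitely generated ring. -/
theorem result {Λ : Type} [CommRing Λ] [Algebra.FiniteType ℤ Λ] (ι : Λ →+* ℂ)
    (hι : Function.Injective ι) (K : Subfield ℂ) [Countable K] (hK : ∀ a, ι a ∈ K)
    (κ : Type) (q N n m M T : ℕ)
    (G : κ → MvPolynomial (Fin (N + 1)) (MvPolynomial (Fin q) Λ))
    (hG : ∀ l, ∃ e, (G l).IsHomogeneous e)
    (A B : Fin n → MvPolynomial (Fin (N + 1)) (MvPolynomial (Fin q) Λ)) (d : Fin n → ℕ)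
    (hA : ∀ i, (A i).IsHomogeneous (d i)) (hB : ∀ i, (B i).IsHomogeneous (d i))
    (R : Fin n → Polynomial (Polynomial (MvPolynomial (Fin q) Λ))) (hR : ∀ i, (R i).Monic)
    (hT : ∀ i u w, ((R i).coeff u).coeff w ≠ 0 → u ≤ T ∧ w ≤ T)
    (f : Fin M → MvPolynomial (Fin q) ℤ) (hf : ∀ l, Irreducible (f l))
    (hfK : ∀ l, Irreducible (MvPolynomial.map (Int.castRingHom K) (f l)))
    (hf2 : ∀ l l', l ≠ l' → ¬ f l ∣ f l')
    (hRf : ∀ l i u w, ((R i).coeff u).coeff w ≠ 0 →
      ¬ DividesOver ι K hK (f l) (((R i).coeff u).coeff w))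
    (e : Fin M → Fin n → ℕ) (he : Independent T e)
    (g : Fin n → MvPolynomial (Fin q) Λ) (hg : ∀ l i, ¬ DividesOver ι K hK (f l) (g i))
    (c : Fin n → MvPolynomial (Fin q) Λ)
    (hc : ∀ i, c i = g i * ∏ l, MvPolynomial.map (algebraMap ℤ Λ) (f l) ^ e l i)
    (β : Fin M → Fin q → ℂ) (hβ : ∀ l, MvPolynomial.aeval (β l) (f l) = 0)
    (hpos : ∀ l, InGeneralPosition (evalC ι (β l)) m G A B) (ε : ℝ) (hε : 0 < ε) :
    (n.choose 2 + 1 ≤ M → ∃ C : ℝ, ∀ H : ℕ, 1 ≤ H →
      (Set.ncard {t : Fin q → ℤ | (∀ j, |t j| ≤ (H : ℤ)) ∧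
        ¬ NoAtypical ι K m (member ι G A B R c t)} : ℝ) ≤ C * (H : ℝ) ^ ((q : ℝ) - 1 + ε)) ∧
    (m = 1 → 4 ≤ M → ∃ C : ℝ, ∀ H : ℕ, 1 ≤ H →
      (Set.ncard {t : Fin q → ℤ | (∀ j, |t j| ≤ (H : ℤ)) ∧
        ∃ (r : ℕ) (Z : SpecialVariety ι n r), r + 2 ≤ n ∧
          (member ι G A B R c t ∩ Z.locus).Nonempty} : ℝ) ≤
        C * (H : ℝ) ^ ((q : ℝ) - 1 + ε)) := by
  classical
  have hdom : IsDomain Λ := hι.isDomain ι
  obtain ⟨C, hC⟩ := exists_places (m := m) (ι.codRestrict K hK) K.subtype G hG A B d hA hB f hf hfK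
    hf2 (τ := Fin n ⊕ (Fin n × Fin (T + 1) × Fin (T + 1)))
    (Sum.elim g fun q =>
      if ((R q.1).coeff q.2.1).coeff q.2.2 = 0 then 1 else ((R q.1).coeff q.2.1).coeff q.2.2)
    (fun l x => by
      rcases x with i | x
      · exact hg l i
      · simp only [Sum.elim_inr]
        split_ifs with h
        · intro h1
          rw [map_one] at h1
          exact (hfK l).not_isUnit (isUnit_of_dvd_one h1)
        · exact hRf l _ _ _ h) β hβ
    (fun l I hI y hy0 hy => hpos l I hI y ⟨hy0, hy⟩) hε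
  have hfin : ∀ H : ℕ, {t : Fin q → ℤ | ∀ j, |t j| ≤ (H : ℤ)}.Finite := fun H =>
    (Fintype.piFinset fun _ : Fin q => Finset.Icc (-(H : ℤ)) H).finite_toSet.subset fun t ht =>
      Fintype.mem_piFinset.2 fun j => Finset.mem_Icc.2 (abs_le.1 (ht j))
  have hev : ∀ (t : Fin q → ℤ), (evalZ t : MvPolynomial (Fin q) Λ →+* Λ) = evZ t := fun _ => rfl
  -- the order of the coefficients at the places
  have horder : ∀ (t : Fin q → ℤ) (l : Fin M) (𝔭 : Ideal Λ), 𝔭.IsPrime →
      (∀ l', l' ≠ l → ((MvPolynomial.eval t (f l') : ℤ) : Λ) ∉ 𝔭) →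
      (∀ i, evZ t (g i) ∉ 𝔭) → ∀ i, ∃ a b : Λ, a ∉ 𝔭 ∧ b ∉ 𝔭 ∧
        a * evalZ t (c i) = b * ((MvPolynomial.eval t (f l) : ℤ) : Λ) ^ e l i := by
    intro t l 𝔭 h𝔭 h1 h2 i
    refine ⟨1, evZ t (g i) * ∏ l' ∈ Finset.univ.erase l,
      ((MvPolynomial.eval t (f l') : ℤ) : Λ) ^ e l' i, ?_, ?_, ?_⟩
    · exact fun h => h𝔭.ne_top ((Ideal.eq_top_iff_one _).2 h)
    · intro h
      rcases h𝔭.mem_or_mem h with h3 | h3
      · exact h2 i h3
      · obtain ⟨l', hl', h4⟩ := (h𝔭.prod_mem_iff).1 h3
        exact h1 l' (Finset.ne_of_mem_erase hl') (h𝔭.mem_of_pow_mem _ h4)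
    · rw [one_mul, hc i, hev, map_mul, map_prod, mul_assoc]
      congr 1
      simp only [map_pow, evZ_map]
      exact (Finset.prod_erase_mul Finset.univ
        (fun l' => ((MvPolynomial.eval t (f l') : ℤ) : Λ) ^ e l' i) (Finset.mem_univ l)).symm
  have hRmon : ∀ (t : Fin q → ℤ) i, ((R i).map (Polynomial.mapRingHom
      (evalZ t : MvPolynomial (Fin q) Λ →+* Λ))).Monic := fun t i => (hR i).map _
  have hRT : ∀ (t : Fin q → ℤ) i u w, (((R i).map (Polynomial.mapRingHom
      (evalZ t : MvPolynomial (Fin q) Λ →+* Λ))).coeff u).coeff w ≠ 0 → u ≤ T ∧ w ≤ T := by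
    intro t i u w h0
    rw [Polynomial.coeff_map, Polynomial.coe_mapRingHom, Polynomial.coeff_map] at h0
    exact hT i u w fun h1 => h0 (by rw [h1, map_zero])
  have hRu : ∀ (t : Fin q → ℤ) (𝔭 : Ideal Λ), (∀ x : Fin n ⊕ (Fin n × Fin (T + 1) × Fin (T + 1)),
      evZ t (Sum.elim g (fun q =>
      if ((R q.1).coeff q.2.1).coeff q.2.2 = 0 then 1 else ((R q.1).coeff q.2.1).coeff q.2.2) x) ∉
        𝔭) → ∀ i u w, (((R i).map (Polynomial.mapRingHom
      (evalZ t : MvPolynomial (Fin q) Λ →+* Λ))).coeff u).coeff w ≠ 0 →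
      (((R i).map (Polynomial.mapRingHom
      (evalZ t : MvPolynomial (Fin q) Λ →+* Λ))).coeff u).coeff w ∉ 𝔭 := by
    intro t 𝔭 hx i u w h
    rw [Polynomial.coeff_map, Polynomial.coe_mapRingHom, Polynomial.coeff_map] at h ⊢
    have h1 : ((R i).coeff u).coeff w ≠ 0 := fun h2 => h (by rw [h2, map_zero])
    obtain ⟨hu, hw⟩ := hT i u w h1
    have h2 := hx (Sum.inr (i, ⟨u, Nat.lt_succ_of_le hu⟩, ⟨w, Nat.lt_succ_of_le hw⟩))
    simp only [Sum.elim_inr] at h2
    rw [if_neg h1] at h2
    exact h2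
  refine ⟨fun hM => ⟨C, fun H hH => le_trans ?_ (hC H hH)⟩, fun hm hM =>
    ⟨C, fun H hH => le_trans ?_ (hC H hH)⟩⟩
  · -- the general case
    rw [Nat.cast_le]
    refine Set.ncard_le_ncard ?_ ((hfin H).subset fun t ht => ht.1)
    rintro t ⟨ht1, ht3⟩
    refine ⟨ht1, ?_⟩
    rintro ⟨-, hpl⟩
    apply ht3
    choose 𝔭 h𝔭 hf𝔭 hf𝔭' hE𝔭 hpos𝔭 using hpl
    let σ : Fin (n.choose 2 + 1) → Fin M := Fin.castLE hM
    have hσ : Function.Injective σ := Fin.castLE_injective hM
    refine LocalCriterion.result.1 Λ ι hι K hK κ N n m T _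
      (fun k => by
        obtain ⟨w, hw⟩ := hG k
        exact ⟨w, hw.map _⟩) _ _ d (fun i => (hA i).map _) (fun i => (hB i).map _) _
      (hRmon t) (hRT t) _ (fun l i => e (σ l) i)
      ⟨fun l i => he.1 _ i, fun l l' hll => he.2 _ _ fun h => hll (hσ h)⟩ fun l => ?_
    have h𝔭l := h𝔭 (σ l)
    let red : Λ →+* AlgebraicClosure (FractionRing (Λ ⧸ 𝔭 (σ l))) :=
      ((algebraMap (FractionRing (Λ ⧸ 𝔭 (σ l))) _).comp
        (algebraMap (Λ ⧸ 𝔭 (σ l)) (FractionRing (Λ ⧸ 𝔭 (σ l))))).comp (Ideal.Quotient.mk _)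
    have hred : ∀ a, red a = 0 ↔ a ∈ 𝔭 (σ l) := by
      intro a
      rw [← Ideal.Quotient.eq_zero_iff_mem]
      show algebraMap (FractionRing (Λ ⧸ 𝔭 (σ l)))
        (AlgebraicClosure (FractionRing (Λ ⧸ 𝔭 (σ l))))
        (algebraMap (Λ ⧸ 𝔭 (σ l)) (FractionRing (Λ ⧸ 𝔭 (σ l))) (Ideal.Quotient.mk _ a)) = 0 ↔ _
      rw [map_eq_zero_iff _ (algebraMap (FractionRing (Λ ⧸ 𝔭 (σ l)))
        (AlgebraicClosure (FractionRing (Λ ⧸ 𝔭 (σ l))))).injective,
        map_eq_zero_iff _ (IsFractionRing.injective (Λ ⧸ 𝔭 (σ l)) (FractionRing (Λ ⧸ 𝔭 (σ l))))]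
    have hker : RingHom.ker red = 𝔭 (σ l) := by
      ext a
      rw [RingHom.mem_ker, hred]
    refine ⟨{
      F := AlgebraicClosure (FractionRing (Λ ⧸ 𝔭 (σ l)))
      red := red
      general := ?_
      coeff_ne := ?_
      ϖ := ((MvPolynomial.eval t (f (σ l)) : ℤ) : Λ)
      red_ϖ := (hred _).2 (hf𝔭 (σ l))
      order := ?_ }⟩
    · rintro I hI y ⟨hy0, hy⟩
      obtain ⟨i, hi, h1⟩ := hpos𝔭 (σ l) _ red hker I hI y hy0 (fun k => by
        have h2 := hy k
        rw [MvPolynomial.eval₂_map] at h2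
        exact h2)
      refine ⟨i, hi, ?_⟩
      rw [MvPolynomial.eval₂_map, MvPolynomial.eval₂_map]
      exact h1
    · intro i u w h h0
      exact hRu t _ (hE𝔭 (σ l)) i u w h ((hred _).1 h0)
    · intro i
      obtain ⟨a, b, h1, h2, h3⟩ := horder t (σ l) _ h𝔭l (hf𝔭' (σ l))
        (fun i => hE𝔭 (σ l) (Sum.inl i)) i
      exact ⟨a, b, fun h => h1 ((hred _).1 h), fun h => h2 ((hred _).1 h), h3⟩
  · -- curves
    subst hm
    rw [Nat.cast_le]
    refine Set.ncard_le_ncard ?_ ((hfin H).subset fun t ht => ht.1)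
    rintro t ⟨ht1, r, Z, hr, x, ⟨y, hy, s, hxy⟩, z, hz⟩
    refine ⟨ht1, ?_⟩
    rintro ⟨-, hpl⟩
    choose 𝔭 h𝔭 hf𝔭 hf𝔭' hE𝔭 hpos𝔭 using hpl
    let σ : Fin 4 → Fin M := Fin.castLE hM
    have hσ : Function.Injective σ := Fin.castLE_injective hM
    let _ : Algebra Λ ℂ := ι.toAlgebra
    refine criterionCurveB (Λ := Λ) hι (fun l => MvPolynomial.map (evalZ t) (G l))
      (fun k => by
        obtain ⟨w, hw⟩ := hG k
        exact ⟨w, hw.map _⟩) (fun i => MvPolynomial.map (evalZ t) (A i))
      (fun i => MvPolynomial.map (evalZ t) (B i)) d (fun i => (hA i).map _)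
      (fun i => (hB i).map _) _ (hRmon t) (hRT t) (fun i => evalZ t (c i)) (fun l => 𝔭 (σ l))
      (fun l => h𝔭 _) ?_ (fun l => hRu t _ (hE𝔭 (σ l)))
      (fun l => ((MvPolynomial.eval t (f (σ l)) : ℤ) : Λ)) (fun l => hf𝔭 _)
      (fun l i => e (σ l) i) (fun l i => he.1 _ i)
      (fun l => horder t (σ l) _ (h𝔭 _) (hf𝔭' (σ l)) (fun i => hE𝔭 (σ l) (Sum.inl i)))
      (fun l l' hll => he.2 _ _ fun h => hll (hσ h)) hr Z.cls
      (fun i i' => ((Z.mat i).det * (Z.mat i').det).toNat) x s
      (fun i i' => by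
        have := mul_pos (Z.det_pos i) (Z.det_pos i')
        omega) ?_ ?_ (fun i => (hxy i).1) y hy.1 hy.2 (fun i => (hxy i).2)
    · intro l F _ φ hφ I hI y' hy0 hy'
      obtain ⟨i, hi, h1⟩ := hpos𝔭 (σ l) _ φ hφ I hI y' hy0 (fun k => by
        have h2 := hy' k
        rw [MvPolynomial.eval₂_map] at h2
        exact h2)
      refine ⟨i, hi, ?_⟩
      rw [MvPolynomial.eval₂_map, MvPolynomial.eval₂_map]
      exact h1
    · intro i hi
      rw [(hz i).1 hi]
      rcases Z.allowed i with ⟨τ, hτ, hc⟩ | h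
      · rw [hc]
        exact (H294ZP.singular_modulus_integral τ hτ).tower_top
      · exact h
    · intro i j l hi hj
      obtain ⟨w, hw, hxw⟩ := (hz i).2 l hi
      obtain ⟨w', hw', hxw'⟩ := (hz j).2 l hj
      rw [← Pool.Agent.W282.ZP.eval_relPoly]
      exact Pool.Agent.W282.ZP.eval_relPoly_eq_zero (Z.det_pos i) (Z.det_pos j) hw hw' hxw hxw'

end Pool.Agent.Results.MP_d83ecd_ag.MultiparameterFamilies
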